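import Pool.Agent.H46.MstLeaf

/-!
# Deleting an edge to lower the mean subtree order: a condition on the blocks

Q1 of `MP_d417b4_co` holds for every finite connected graph `G` which is not a tree and each of whose
blocks `C` with at least three vertices satisfies one of the following:

* the cut vertices `v` of `G` in `C` satisfy `∑ 1 / deg_C(v) ≤ 4` (for example, `C` contains at most
  eight cut vertices of `G`, or every vertex of `C` has at least `|C| / 4` neighbours in `C`);
* `C` spans at most `|C| + 3` edges (for example, `C` is a cycle).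

In particular it holds for all cactus graphs, all block graphs, all graphs with at most eight cut
vertices and all graphs with cyclomatic number at most four.
-/

namespace Pool.Agent.Results.MP_d417b4_co.BlockCondition

open Finset
open scoped Classical

/-- the subtrees of `G`: the subgraphs of `G` which are trees (not necessarily induced) -/
noncomputable def subtrees {V : Type*} [Fintype V] (G : SimpleGraph V) : Finset G.Subgraph :=
  Finset.univ.filter fun H => H.coe.IsTree

/-- the mean subtree order of `G` -/
noncomputable def mu {V : Type*} [Fintype V] (G : SimpleGraph V) : ℝ :=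
  (∑ H ∈ subtrees G, (H.verts.ncard : ℝ)) / (subtrees G).card

/-- `G[C]` is connected and remains connected (and nonempty) when one vertex is removed: the
vertex sets of the nonseparable subgraphs with at least two vertices -/
def Nonsep {V : Type*} (G : SimpleGraph V) (C : Finset V) : Prop :=
  (G.induce (C : Set V)).Connected ∧
    ∀ v ∈ C, (G.induce ((C.erase v : Finset V) : Set V)).Connected

/-- `C` is the vertex set of a block of `G` with at least three vertices -/
def IsBlock {V : Type*} (G : SimpleGraph V) (C : Finset V) : Prop :=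
  3 ≤ C.card ∧ Nonsep G C ∧ ∀ C' : Finset V, Nonsep G C' → C ⊆ C' → C' = C

/-- `v` is a cut vertex of `G`: the graph `G - v` is not connected -/
def IsCutVertex {V : Type*} (G : SimpleGraph V) (v : V) : Prop :=
  ¬(G.induce ({v}ᶜ : Set V)).Preconnected

/-- the degree of `v` in `G[C]` -/
noncomputable def degreeIn {V : Type*} (G : SimpleGraph V) (C : Finset V) (v : V) : ℕ :=
  (C.filter fun u => G.Adj v u).card

/-- the number of edges of `G[C]` -/
noncomputable def edgesIn {V : Type*} [Fintype V] (G : SimpleGraph V) (C : Finset V) : ℕ :=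
  ((univ : Finset (Sym2 V)).filter fun e => e ∈ G.edgeSet ∧ ∀ x ∈ e, x ∈ C).card

/-- **Theorem.** Let `G` be a finite connected graph which is not a tree. Suppose that for every block
`C` of `G` with at least three vertices the cut vertices `v` of `G` in `C` satisfy
`∑ 1 / deg_{G[C]}(v) ≤ 4`, or `G[C]` has at most `|C| + 3` edges. Then `G` has an edge `e` such that
`G - e` is connected and the mean subtree order of `G - e` is smaller than that of `G`. -/
theorem result {V : Type*} [Fintype V] (G : SimpleGraph V) (hG : G.Connected) (hT : ¬G.IsTree)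
    (hB : ∀ C : Finset V, IsBlock G C →
      ∑ v ∈ C.filter (fun v => IsCutVertex G v), 1 / (degreeIn G C v : ℝ) ≤ 4 ∨
        edgesIn G C ≤ C.card + 3) :
    ∃ e ∈ G.edgeSet, (G.deleteEdges {e}).Connected ∧ mu (G.deleteEdges {e}) < mu G := by
  have hns : ∀ C : Finset V, H46.MST.NS (H46.MST.ed G) C ↔ Nonsep G C := by
    intro C
    constructor
    · intro h
      exact ⟨H46.MST.conn_iff.1 h.conn, fun v hv => H46.MST.conn_iff.1 (h.erase v hv)⟩
    · rintro ⟨h1, h2⟩
      refine ⟨?_, H46.MST.conn_iff.2 h1, fun v hv => H46.MST.conn_iff.2 (h2 v hv)⟩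
      obtain ⟨⟨r, hr⟩⟩ := h1.nonempty
      obtain ⟨⟨s, hs⟩⟩ := (h2 r hr).nonempty
      have hs' : s ∈ C.erase r := hs
      have h3 : 0 < (C.erase r).card := Finset.card_pos.2 ⟨s, hs'⟩
      rw [Finset.card_erase_of_mem hr] at h3
      omega
  refine H46.MST.main_graph G hG hT ?_
  intro C hBl π hg S F hSF hSC
  have hbl : IsBlock G C :=
    ⟨hBl.three, (hns C).1 hBl.ns, fun C' h h' => hBl.max C' ((hns C').2 h) h'⟩
  have hdeg : ∀ c, H46.MST.degC (H46.MST.ed G) C c = degreeIn G C c := by
    intro c
    unfold H46.MST.degC degreeIn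
    congr 1
    ext u
    simp only [Finset.mem_filter]
    constructor
    · rintro ⟨h1, _, h3⟩
      exact ⟨h1, (H46.MST.mk_mem_ed.1 h3).symm⟩
    · rintro ⟨h1, h2⟩
      exact ⟨h1, h2.ne', H46.MST.mk_mem_ed.2 h2.symm⟩
  rcases hB C hbl with h | h
  · refine le_trans ?_ h
    rw [Finset.sum_congr rfl fun c _ => by rw [hdeg c]]
    refine Finset.sum_le_sum_of_subset_of_nonneg ?_ fun _ _ _ => by positivity
    intro c hc
    rw [Finset.mem_filter] at hc ⊢
    exact ⟨hc.1, H46.MST.cut_of_hang hg hc.1 (by have := hBl.three; omega) hc.2.1⟩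
  · have hs : (H46.MST.edC (H46.MST.ed G) C).card ≤ C.card + 3 := by
      refine le_trans (le_of_eq ?_) h
      unfold edgesIn
      congr 1
      ext e
      unfold H46.MST.edC
      rw [Finset.mem_filter, Finset.mem_filter, H46.MST.mem_ed]
      exact ⟨fun h => ⟨Finset.mem_univ _, h⟩, fun h => h.2⟩
    convert H46.MST.leaf_sparse hBl.ns hBl.three hs (fun c => H46.MST.hang π c ≠ {c}) S F hSF hSC

end Pool.Agent.Results.MP_d417b4_co.BlockCondition
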